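import Pool.Agent.H.MP_1e45a6.A

set_option autoImplicit false

open Set

namespace Pool.Agent.Results.MP_1e45a6_gt.Yes

universe u

theorem result (ι : Type u) [LinearOrder ι] (X : Set (ι → Bool))
    (h : ∀ (n : ℕ) (b : Fin n → Bool) (A : Set (Finset ι)), A.Infinite → (∀ F ∈ A, F.card = n) →
      A.Pairwise Disjoint →
      {x ∈ X | ¬ ∃ F ∈ A, ∃ e : F.card = n, ∀ i, x (F.orderEmbOfFin e i) = b i}.Countable)
    (U : X → Set X) (hU : ∀ x, IsOpen (U x) ∧ x ∈ U x) : ∃ D : Set X, ⋃ x ∈ D, U x = univ ∧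
      ∀ z : X, ∃ F : Set X, F.Finite ∧ F.Nonempty ∧ z ∈ ⋂ x ∈ F, U x ∧
        ((⋂ x ∈ F, U x) ∩ D).Finite := by
  obtain ⟨D, d1, d2⟩ := Pool.Agent.H.MP_1e45a6.strongD h U hU
  refine ⟨D, eq_univ_of_forall fun y => by simpa using d1 y, fun z => ?_⟩
  obtain ⟨F, f1, f2, f3⟩ := d2 z
  exact ⟨F, F.finite_toSet, f1, mem_iInter₂.2 f2, f3.subset fun y hy =>
    ⟨hy.2, mem_iInter₂.1 hy.1⟩⟩

end Pool.Agent.Results.MP_1e45a6_gt.Yes
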